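import Mathlib
import Pool.Agent.Helper35.MS.StH

/-!
Project MS, module DAT.
-/

set_option autoImplicit false

namespace Helper95.MS

open Helper35.MS Helper35.PI Helper35.PI2 Helper32.CL
open scoped ContDiff Manifold Topology ENNReal BigOperators
open MeasureTheory Set Filter

theorem sgT_mono {a b : ℝ} (h : a ≤ b) : sgT a ≤ sgT b := by
  unfold sgT
  have h1 : Real.exp (-4 * b) ≤ Real.exp (-4 * a) := Real.exp_le_exp.2 (by linarith)
  linarith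

theorem sgT_zero : sgT 0 = 0 := by
  unfold sgT
  simp

theorem sgT_le {t : ℝ} : sgT t ≤ t := by
  unfold sgT
  have h1 := Real.add_one_le_exp (-4 * t)
  linarith

theorem uniqueDiffOn_IS {TE : ℝ} (h : 0 < TE) : UniqueDiffOn ℝ (IS TE) := by
  refine uniqueDiffOn_convex ?_ ?_
  · rw [convex_iff_ordConnected, ordConnected_def]
    intro a ha b hb x hx
    exact ⟨le_trans ha.1 hx.1, lt_of_le_of_lt (sgT_mono hx.2) hb.2⟩
  · refine ⟨TE / 2, ?_⟩
    rw [mem_interior]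
    refine ⟨Ioo 0 TE, ?_, isOpen_Ioo, ⟨by linarith, by linarith⟩⟩
    intro t ht
    exact ⟨ht.1.le, lt_of_le_of_lt sgT_le ht.2⟩

theorem cont_slice {M V : Type} [TopologicalSpace M] [TopologicalSpace V] {J : Set ℝ}
    {g : M → ℝ → V} (h : CSTJ J g) {t : ℝ} (ht : t ∈ J) : Continuous (fun q => g q t) := by
  have h1 : ContinuousOn (fun q : M => g q t) univ := by
    have h2 : ContinuousOn (fun q : M => ((q, t) : M × ℝ)) univ := by fun_prop
    exact ContinuousOn.comp (t := univ ×ˢ J) h h2 (fun q _ => ⟨mem_univ _, ht⟩)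
  exact continuousOn_univ.1 h1

/-- MODULE DAT. -/
theorem hDAT (hCNV : StCNV) (_hCT0 : StCT0) (hINC : StINC) (hPRE : StPRE) (hPKG : StPKG)
    (hGBF : StGBF) (hV5 : StV5) (hMUJ : StMUJ) (hI4J : StI4J) : StDAT := by
  intro N F TE hTE hTE4 hS hP
  have hU := uniqueDiffOn_IS hTE
  have h0 : (0 : ℝ) ∈ IS TE := ⟨le_refl _, by rw [sgT_zero]; exact hTE⟩
  obtain ⟨ε, hε, hε1, hph⟩ := hINC N S2 (IS TE) F hU h0 hS hP
  have hph2 := hPRE N S2 F TE hTE hTE4 hS ε hε hε1 hph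
  obtain ⟨hM, hτ⟩ := hCNV N S2 F TE hTE hTE4 hS
  have hsub : Ioo 0 TE ⊆ Ico 0 (1 / 4) := fun t ht => ⟨ht.1.le, lt_of_lt_of_le ht.2 hTE4⟩
  have hpin := hPKG N S2 (Ioo 0 TE) (FEs F) hM hsub
    (fun q t ht => ((hτ t ⟨ht.1.le, ht.2⟩).2.2 q).1) ε hε hε1
    (fun q t ht => (hph2 q t ⟨ht.1.le, ht.2⟩).le)
  have hne : Nonempty S2 := by
    obtain ⟨x, hx⟩ := (NormedSpace.sphere_nonempty (E := EE 3) (x := 0) (r := 1)).2 zero_le_one
    exact ⟨⟨x, hx⟩⟩
  obtain ⟨c, χ, hPU⟩ := hV5 2 S2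
  have hSet : SetupJ 2 (Ioo 0 TE) (FEs F) c χ := ⟨hM.toIsImmJ, hPU⟩
  refine ⟨c, χ, ε / 80, ⟨hTE, ⟨hM, hPU⟩, hpin.1, ?_⟩, hpin.2⟩
  intro t ht
  obtain ⟨s, _, hs⟩ := hMUJ 2 N S2 (Ioo 0 TE) (FEs F) c χ hSet
  obtain ⟨_, _, hint⟩ := hs t ht
  obtain ⟨_, cH, cA, _⟩ := hI4J 2 N S2 (Ioo 0 TE) (FEs F) hM.toIsImmJ
  have c1 : Continuous (fun q => YF (FEs F) q t) := by
    have := cont_slice cH ht
    unfold YF
    fun_prop
  have c2 : Continuous (fun q => thF 2 (FEs F) q t) := by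
    have h1 := cont_slice cH ht
    have h2 := cont_slice cA ht
    unfold thF
    fun_prop
  have hG := hGBF N (Ioo 0 TE) (FEs F) c χ hSet t ht
  unfold wI eI
  rw [← integral_sub (hint _ c1).1 (hint _ c2).1]
  have h3 : (fun q => YF (FEs F) q t - thF 2 (FEs F) q t) =
      fun q => 2 * (‖HH (n := 2) (FEs F) q t‖ ^ 2 - AA (n := 2) (FEs F) q t) := by
    funext q
    unfold YF thF
    ring
  rw [h3, integral_const_mul, hG]
  ring

end Helper95.MS
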