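import Mathlib
import Pool.Agent.Helper35.MS.StGB

/-!
Project MS, module GLO.
-/

set_option autoImplicit false

namespace Helper95.MS

open Helper35.MS Helper35.PI Helper35.PI2 Helper32.CL
open scoped ContDiff Manifold Topology ENNReal BigOperators
open MeasureTheory Set Filter

theorem fderiv_two_mul {E : Type} [NormedAddCommGroup E] [NormedSpace ℝ E] (g : E → ℝ) (x v : E) :
    fderiv ℝ (fun y => 2 * g y) x v = 2 * fderiv ℝ g x v := by
  by_cases h : DifferentiableAt ℝ g x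
  · rw [fderiv_const_mul h]
    simp
  · have h' : ¬ DifferentiableAt ℝ (fun y => 2 * g y) x := by
      intro hc
      apply h
      have h2 : g = fun y => (1 / 2 : ℝ) * (2 * g y) := by
        funext y
        ring
      rw [h2]
      exact hc.const_mul _
    rw [fderiv_zero_of_not_differentiableAt h, fderiv_zero_of_not_differentiableAt h']
    simp

/-- MODULE GLO. -/
theorem hGLO (hGLA : StGLA) (hGLD : StGLD) (hGLF : StGLF) (hSM : Helper35.PI.StSM)
    (_hFR : StFR) : StGLO := by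
  intro N f z₀ hf hLI
  obtain ⟨s1, s2, s3, s4, s5, s6, s7, s8, s9, s10⟩ := hSM 2 N f z₀ hf hLI
  -- the local identities near `z₀`
  have hA : ∀ᶠ z in 𝓝 z₀,
      ((‖mcv (fun y => f (y, z.2)) z.1‖ ^ 2 - nsq (fun y => f (y, z.2)) z.1)
        * sgm (fun y => f (y, z.2)) z.1
        = 2 * (((inner ℝ (sff (fun y => f (y, z.2)) z.1 0 0)
            (sff (fun y => f (y, z.2)) z.1 1 1) : ℝ)
          - ‖sff (fun y => f (y, z.2)) z.1 0 1‖ ^ 2) / sgm (fun y => f (y, z.2)) z.1)) ∧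
      (sgm (fun y => f (y, z.2)) z.1 * (∑ l, (gram (fun y => f (y, z.2)) z.1)⁻¹ 0 l
          * zcv (fun y => f (y, z.2)) (fun y => jt f (y, z.2)) z.1 l)
        = 2 * (((inner ℝ (sff (fun y => f (y, z.2)) z.1 1 1)
              (fderiv ℝ (fun y => jt f (y, z.2)) z.1 (ee 0)) : ℝ)
          - inner ℝ (sff (fun y => f (y, z.2)) z.1 0 1)
              (fderiv ℝ (fun y => jt f (y, z.2)) z.1 (ee 1)))
          / sgm (fun y => f (y, z.2)) z.1)) ∧
      (sgm (fun y => f (y, z.2)) z.1 * (∑ l, (gram (fun y => f (y, z.2)) z.1)⁻¹ 1 l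
          * zcv (fun y => f (y, z.2)) (fun y => jt f (y, z.2)) z.1 l)
        = 2 * (((inner ℝ (sff (fun y => f (y, z.2)) z.1 0 0)
              (fderiv ℝ (fun y => jt f (y, z.2)) z.1 (ee 1)) : ℝ)
          - inner ℝ (sff (fun y => f (y, z.2)) z.1 0 1)
              (fderiv ℝ (fun y => jt f (y, z.2)) z.1 (ee 0)))
          / sgm (fun y => f (y, z.2)) z.1)) := by
    filter_upwards [s1] with z hz
    obtain ⟨h1, h2, h3, h4, h5⟩ := hz
    have hsym : ∀ i j, sff (fun y => f (y, z.2)) z.1 i j = sff (fun y => f (y, z.2)) z.1 j i := by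
      intro i j
      unfold sff
      rw [h4 i j, h4 j i, h5 i j]
    obtain ⟨_, g1, g2, g3⟩ := hGLA N (fun y => f (y, z.2)) (fun y => jt f (y, z.2)) z.1 h1 hsym
    exact ⟨g1, g2, g3⟩
  have hF := hGLF N f z₀ hf hLI _ _ _ _ _ rfl rfl rfl rfl rfl
  -- restriction of the neighbourhood to the two slices
  have ct : Tendsto (fun s : ℝ => (z₀.1, s)) (𝓝 z₀.2) (𝓝 z₀) := by
    have h : ContinuousAt (fun s : ℝ => (z₀.1, s)) z₀.2 := by fun_prop
    exact h
  have cx : Tendsto (fun y : EE 2 => (y, z₀.2)) (𝓝 z₀.1) (𝓝 z₀) := by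
    have h : ContinuousAt (fun y : EE 2 => (y, z₀.2)) z₀.1 := by fun_prop
    exact h
  have hAt := ct.eventually hA
  have hAx := cx.eventually hA
  -- the divergence
  have hfx : ContDiffAt ℝ ∞ (fun y => f (y, z₀.2)) z₀.1 := by
    have h1 : ContDiffAt ℝ ∞ (fun y : EE 2 => (y, z₀.2)) z₀.1 :=
      contDiffAt_id.prodMk contDiffAt_const
    exact ContDiffAt.comp z₀.1 (g := f) (f := fun y : EE 2 => (y, z₀.2)) hf h1
  have hVx : ContDiffAt ℝ ∞ (fun y => jt f (y, z₀.2)) z₀.1 := by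
    have h1 : ContDiffAt ℝ ∞ (fun y : EE 2 => (y, z₀.2)) z₀.1 :=
      contDiffAt_id.prodMk contDiffAt_const
    exact ContDiffAt.comp z₀.1 (g := jt f) (f := fun y : EE 2 => (y, z₀.2)) s3 h1
  have hD := hGLD 2 N (fun y => f (y, z₀.2)) (fun y => jt f (y, z₀.2)) z₀.1 hfx hVx hLI
  rw [hD, Fin.sum_univ_two]
  have e0 := Filter.EventuallyEq.fderiv_eq (𝕜 := ℝ)
    (hAx.mono fun y hy => hy.2.1 : (fun y => sgm (fun y' => f (y', z₀.2)) y *
      (∑ l, (gram (fun y' => f (y', z₀.2)) y)⁻¹ 0 l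
          * zcv (fun y' => f (y', z₀.2)) (fun y' => jt f (y', z₀.2)) y l)) =ᶠ[𝓝 z₀.1] _)
  have e1 := Filter.EventuallyEq.fderiv_eq (𝕜 := ℝ)
    (hAx.mono fun y hy => hy.2.2 : (fun y => sgm (fun y' => f (y', z₀.2)) y *
      (∑ l, (gram (fun y' => f (y', z₀.2)) y)⁻¹ 1 l
          * zcv (fun y' => f (y', z₀.2)) (fun y' => jt f (y', z₀.2)) y l)) =ᶠ[𝓝 z₀.1] _)
  rw [e0, e1, fderiv_two_mul, fderiv_two_mul, ← mul_add]
  refine (hF.const_mul 2).congr_of_eventuallyEq ?_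
  filter_upwards [hAt] with s hs
  exact hs.1

end Helper95.MS
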